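import Pool.Agent.L7h3.CE.Stm
import Pool.Agent.Helper391.Lg.P_koenig

/-! # Project CE, part RAY -/

set_option autoImplicit false

namespace Pool.Agent.L7h61.CE

open Set Pool.Agent.Helper391.Lg Pool.Agent.L7h3.CE

universe u

theorem s_RAY : S_RAY.{u} := by
  intro V G hlf D hD hne hout hconn
  have hmono : ∀ m n, m ≤ n → D n ⊆ D m := fun m n h => antitone_nat_of_succ_le hD h
  choose x hx using hne
  have hw : ∀ n, (SimpleGraph.fromEdgeSet (ins G (D n))).Reachable (x n) (x (n + 1)) :=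
    fun n => hconn n _ (hx n) _ (hD n (hx (n + 1)))
  let p : ∀ n, (SimpleGraph.fromEdgeSet (ins G (D n))).Walk (x n) (x (n + 1)) :=
    fun n => (hw n).some
  obtain ⟨T, hT⟩ : ∃ T : Set (Sym2 V), T = {e | ∃ n, e ∈ (p n).edges} := ⟨_, rfl⟩
  have hpe : ∀ n, ∀ e ∈ (p n).edges, e ∈ ins G (D n) := by
    intro n e he
    have h1 := (p n).edges_subset_edgeSet he
    rw [SimpleGraph.edgeSet_fromEdgeSet] at h1
    exact h1.1
  have hTG : T ⊆ G.edgeSet := by
    intro e he
    rw [hT] at he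
    obtain ⟨n, hn⟩ := he
    exact (hpe n e hn).1
  have hreach : ∀ n, (SimpleGraph.fromEdgeSet T).Reachable (x 0) (x n) := by
    intro n
    induction n with
    | zero => exact SimpleGraph.Reachable.refl _
    | succ n ih =>
      refine ih.trans ⟨(p n).transfer _ fun e he => ?_⟩
      rw [SimpleGraph.edgeSet_fromEdgeSet]
      refine ⟨?_, ?_⟩
      · rw [hT]
        exact ⟨n, he⟩
      · have h1 := (p n).edges_subset_edgeSet he
        rw [SimpleGraph.edgeSet_fromEdgeSet] at h1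
        exact h1.2
  have hinf : {w | (SimpleGraph.fromEdgeSet T).Reachable (x 0) w}.Infinite := by
    intro hfin
    have h1 : (range x).Finite := hfin.subset (by
      rintro _ ⟨n, rfl⟩
      exact hreach n)
    choose k hk using hout
    obtain ⟨N, hN⟩ := (h1.image k).bddAbove
    have h2 : k (x N) ≤ N := hN ⟨x N, ⟨N, rfl⟩, rfl⟩
    exact hk (x N) (hmono _ _ h2 (hx N))
  obtain ⟨r, hr1, hr2, -⟩ := koenig G hlf T hTG (x 0) hinf
  refine ⟨r, ⟨hr1, fun n => hTG (hr2 n)⟩, fun n => ?_⟩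
  have hbad : {e | e ∈ T ∧ e ∉ ins G (D n)}.Finite := by
    refine (Set.Finite.biUnion (finite_Iio n) fun m _ => (p m).edges.finite_toSet).subset ?_
    rintro e ⟨he, he2⟩
    rw [hT] at he
    obtain ⟨m, hm⟩ := he
    rw [mem_iUnion₂]
    refine ⟨m, ?_, hm⟩
    by_contra hcon
    rw [mem_Iio, not_lt] at hcon
    have h3 := hpe m e hm
    exact he2 ⟨h3.1, fun v hv => hmono _ _ hcon (h3.2 v hv)⟩
  have hinj : Function.Injective fun k => s(r k, r (k + 1)) := by
    intro a b hab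
    simp only [Sym2.eq_iff] at hab
    rcases hab with ⟨h1, _⟩ | ⟨h1, h2⟩
    · exact hr1 h1
    · have h3 := hr1 h1
      have h4 := hr1 h2
      omega
  have hfin := hbad.preimage (hinj.injOn (s := (fun k => s(r k, r (k + 1))) ⁻¹' {e | e ∈ T ∧ e ∉ ins G (D n)}))
  obtain ⟨N, hN⟩ := hfin.bddAbove
  refine ⟨N + 1, fun k hk => ?_⟩
  by_contra hcon
  have h5 : k ∈ (fun k => s(r k, r (k + 1))) ⁻¹' {e | e ∈ T ∧ e ∉ ins G (D n)} := by
    refine ⟨hr2 k, fun h => hcon (h.2 (r k) (Sym2.mem_mk_left _ _))⟩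
  have := hN h5
  omega

end Pool.Agent.L7h61.CE
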