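import Pool.Agent.L7h3.CE.Stm

/-! # Project CE, part SING -/

set_option autoImplicit false

namespace Pool.Agent.L7h61.CE

open Set Pool.Agent.Helper391.Lg Pool.Agent.L7h3.CE

universe u

theorem s_SING : S_SING.{u} := by
  intro V G v
  refine ⟨∅, ∅, ⟨empty_subset _, empty_subset _, disjoint_bot_left, ?_, ?_, ?_⟩⟩
  · rintro u rfl w rfl
    exact SimpleGraph.Reachable.refl _
  · intro S hS
    refine ⟨insert v S, hS.insert v, subset_insert _ _, ?_⟩
    rintro u ⟨h1, h2⟩
    exact absurd (Or.inl h1) h2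
  · rintro Z hZ ⟨z, hz⟩ ⟨w, hw, hw2⟩ -
    have h1 := hZ hz
    rw [mem_singleton_iff] at h1 hw
    rw [hw, ← h1] at hw2
    exact absurd hz hw2

end Pool.Agent.L7h61.CE
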