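import Pool.Agent.L7h3.CE.Stm
import Pool.Agent.Helper391.Lg.P_countable_of_conn

/-! # Project CE, part SPLIT -/

set_option autoImplicit false

namespace Pool.Agent.L7h61.CE

open Set Pool.Agent.Helper391.Lg Pool.Agent.L7h3.CE

universe u

/-- one step: in a bad set without two disjoint bad subsets there is a colouring with one bad class -/
theorem split_step (hREF : S_REF.{u}) (hGLUE : S_GLUE.{u}) (hSING : S_SING.{u})
    {V : Type u} {G : SimpleGraph V} (hG : Four G) {D : Set V}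
    (hno : ∀ D₁ ⊆ D, ∀ D₂ ⊆ D, Disjoint D₁ D₂ → Bad G D₁ → Bad G D₂ → False)
    (D' : Set V) (hD' : D' ⊆ D) (hb : Bad G D') (v : V) :
    ∃ (f : V → ℕ) (c : ℕ), (f '' D').Finite ∧ Bad G {x | x ∈ D' ∧ f x = c} ∧
      v ∉ {x | x ∈ D' ∧ f x = c} ∧
      ∀ c' ∈ f '' D', c' ≠ c → (bd G {x | x ∈ D' ∧ f x = c'}).Finite ∧
        Pool.Agent.L7h3.CE.Good G {x | x ∈ D' ∧ f x = c'} := by
  classical
  obtain ⟨g, hg⟩ : ∃ g : V → ℕ, g = fun x => if x = v then 1 else 0 := ⟨_, rfl⟩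
  have hg1 : (g '' D').Finite := by
    refine (Set.toFinite ({0, 1} : Set ℕ)).subset ?_
    rintro _ ⟨x, -, rfl⟩
    rw [hg]
    by_cases h : x = v
    · simp [h]
    · simp [h]
  have hg2 : (crs G D' g).Finite := by
    refine ((hG.lf v).image fun w => s(v, w)).subset ?_
    rintro e ⟨⟨he, -⟩, a, ha, b, hb', hab⟩
    have hv : v ∈ e := by
      rw [hg] at hab
      by_cases h1 : a = v
      · rwa [h1] at ha
      · by_cases h2 : b = v
        · rwa [h2] at hb'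
        · simp [h1, h2] at hab
    obtain ⟨w, rfl⟩ := Sym2.mem_iff_exists.1 hv
    exact ⟨w, he, rfl⟩
  obtain ⟨f, hf1, hf2, hf3, hf4⟩ := hREF V G hG D' hb.1.ne hb.1.fin g hg1 hg2
  -- some class is bad
  have hc : ∃ c ∈ f '' D', ¬ Pool.Agent.L7h3.CE.Good G {x | x ∈ D' ∧ f x = c} := by
    by_contra hcon
    push Not at hcon
    exact hb.2 (hGLUE V G D' hb.1 f hf1 hf2 hcon)
  obtain ⟨c, hc1, hc2⟩ := hc
  have hcb : Bad G {x | x ∈ D' ∧ f x = c} := ⟨hf4 c hc1, hc2⟩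
  refine ⟨f, c, hf1, hcb, ?_, ?_⟩
  · rintro ⟨hv1, hv2⟩
    apply hc2
    have h1 : {x | x ∈ D' ∧ f x = c} = {v} := by
      ext x
      constructor
      · rintro ⟨hx1, hx2⟩
        have h2 := hf3 x hx1 v hv1 (hx2.trans hv2.symm)
        rw [hg] at h2
        by_contra h3
        rw [mem_singleton_iff] at h3
        simp [h3] at h2
      · rintro rfl
        exact ⟨hv1, hv2⟩
    rw [h1]
    exact hSING V G v
  · intro c' hc' hne
    refine ⟨(hf4 c' hc').fin, ?_⟩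
    by_contra hcon
    refine hno {x | x ∈ D' ∧ f x = c} (fun x hx => hD' hx.1) {x | x ∈ D' ∧ f x = c'}
      (fun x hx => hD' hx.1) ?_ hcb ⟨hf4 c' hc', hcon⟩
    rw [Set.disjoint_left]
    rintro x ⟨-, h1⟩ ⟨-, h2⟩
    exact hne (h2.symm.trans h1)

theorem split_aux (hREF : S_REF.{u}) (hGLUE : S_GLUE.{u}) (hSING : S_SING.{u})
    (hSCON : S_SCON.{u}) (hLIM : S_LIM.{u})
    {V : Type u} {G : SimpleGraph V} (hG : Four G) {D : Set V} (hD : Bad G D)
    (hDc : Dᶜ.Nonempty) (vs : ℕ → V) (hvs : Function.Surjective vs)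
    (hno : ∀ D₁ ⊆ D, ∀ D₂ ⊆ D, Disjoint D₁ D₂ → Bad G D₁ → Bad G D₂ → False) : False := by
  classical
  have hstep : ∀ (b : {D' : Set V // D' ⊆ D ∧ Bad G D'}) (v : V),
      ∃ (f : V → ℕ) (c : ℕ), (f '' b.1).Finite ∧ Bad G {x | x ∈ b.1 ∧ f x = c} ∧
      v ∉ {x | x ∈ b.1 ∧ f x = c} ∧
      ∀ c' ∈ f '' b.1, c' ≠ c → (bd G {x | x ∈ b.1 ∧ f x = c'}).Finite ∧
        Pool.Agent.L7h3.CE.Good G {x | x ∈ b.1 ∧ f x = c'} :=
    fun b v => split_step hREF hGLUE hSING hG hno b.1 b.2.1 b.2.2 v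
  choose f c h1 h2 h3 h4 using hstep
  let next : {D' : Set V // D' ⊆ D ∧ Bad G D'} → V → {D' : Set V // D' ⊆ D ∧ Bad G D'} :=
    fun b v => ⟨{x | x ∈ b.1 ∧ f b v x = c b v}, fun x hx => b.2.1 hx.1, h2 b v⟩
  let sq : ℕ → {D' : Set V // D' ⊆ D ∧ Bad G D'} :=
    fun n => Nat.rec ⟨D, Subset.rfl, hD⟩ (fun n b => next b (vs n)) n
  obtain ⟨E, hE⟩ : ∃ E : ℕ → Set V, E = fun n => (sq n).1 := ⟨_, rfl⟩
  obtain ⟨F, hF⟩ : ∃ F : ℕ → V → ℕ, F = fun n => f (sq n) (vs n) := ⟨_, rfl⟩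
  obtain ⟨C, hC⟩ : ∃ C : ℕ → ℕ, C = fun n => c (sq n) (vs n) := ⟨_, rfl⟩
  have hE0 : E 0 = D := by
    rw [hE]
    rfl
  have hEs : ∀ n, E (n + 1) = {x | x ∈ E n ∧ F n x = C n} := by
    intro n
    rw [hE, hF, hC]
  have hEb : ∀ n, Bad G (E n) := by
    intro n
    rw [hE]
    exact (sq n).2.2
  have hED : ∀ n, E n ⊆ D := by
    intro n
    rw [hE]
    exact (sq n).2.1
  have hEv : ∀ n, vs n ∉ E (n + 1) := by
    intro n
    rw [hEs, hE, hF, hC]
    exact h3 (sq n) (vs n)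
  have hFf : ∀ n, (F n '' E n).Finite := by
    intro n
    rw [hE, hF]
    exact h1 (sq n) (vs n)
  have hFg : ∀ n, ∀ c' ∈ F n '' E n, c' ≠ C n → (bd G {x | x ∈ E n ∧ F n x = c'}).Finite ∧
      Pool.Agent.L7h3.CE.Good G {x | x ∈ E n ∧ F n x = c'} := by
    intro n
    rw [hE, hF, hC]
    exact h4 (sq n) (vs n)
  clear_value next sq
  clear hE hF hC h1 h2 h3 h4
  have hmono : ∀ m n, m ≤ n → E n ⊆ E m := by
    intro m n hmn
    refine antitone_nat_of_succ_le (fun k => ?_) hmn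
    rw [hEs]
    exact fun x hx => hx.1
  have hex : ∀ x, ∃ n, x ∉ E (n + 1) := by
    intro x
    obtain ⟨n, rfl⟩ := hvs x
    exact ⟨n, hEv n⟩
  obtain ⟨lev, hlev⟩ : ∃ lev : V → ℕ, lev = fun x => Nat.find (hex x) := ⟨_, rfl⟩
  have hl1 : ∀ x, x ∉ E (lev x + 1) := by
    intro x
    rw [hlev]
    exact Nat.find_spec (hex x)
  have hl2 : ∀ x ∈ D, x ∈ E (lev x) := by
    intro x hx
    rcases Nat.eq_zero_or_pos (lev x) with h | h
    · rw [h, hE0]
      exact hx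
    · obtain ⟨k, hk⟩ : ∃ k, lev x = k + 1 := ⟨lev x - 1, by omega⟩
      rw [hk]
      by_contra hcon
      have h5 : lev x ≤ k := by
        rw [hlev]
        exact Nat.find_min' (hex x) hcon
      omega
  have hl3 : ∀ x n, x ∈ E n → x ∉ E (n + 1) → lev x = n := by
    intro x n hx hx'
    apply le_antisymm
    · rw [hlev]
      exact Nat.find_min' (hex x) hx'
    · by_contra hcon
      push Not at hcon
      exact hl1 x (hmono (lev x + 1) n hcon hx)
  have hl4 : ∀ x n, x ∈ E n → n ≤ lev x := by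
    intro x n hx
    by_contra hcon
    push Not at hcon
    exact hl1 x (hmono (lev x + 1) n hcon hx)
  have hl5 : ∀ x n, x ∈ D → x ∉ E n → lev x < n := by
    intro x n hx hx'
    by_contra hcon
    push Not at hcon
    exact hx' (hmono n (lev x) hcon (hl2 x hx))
  obtain ⟨col, hcol⟩ : ∃ col : V → ℕ, col = fun x => Nat.pair (lev x) (F (lev x) x) := ⟨_, rfl⟩
  have hcol1 : ∀ x, (Nat.unpair (col x)).1 = lev x := by
    intro x
    rw [hcol]
    simp
  apply hD.2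
  refine hLIM V G hG D hD.1 hDc col ?_ ?_ ?_
  · -- infinitely many colours
    intro hfin
    obtain ⟨N, hN⟩ := (hfin.image fun j => (Nat.unpair j).1).bddAbove
    obtain ⟨x, hx⟩ := (hEb (N + 1)).1.ne
    have hxD := hED _ hx
    have h5 : (Nat.unpair (col x)).1 ≤ N := hN ⟨col x, ⟨x, hxD, rfl⟩, rfl⟩
    rw [hcol1] at h5
    exact hl1 x (hmono (lev x + 1) (N + 1) (by omega) hx)
  · -- the classes
    rintro _ ⟨x₀, hx₀, rfl⟩
    have h6 : F (lev x₀) x₀ ≠ C (lev x₀) := by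
      intro h7
      apply hl1 x₀
      rw [hEs]
      exact ⟨hl2 x₀ hx₀, h7⟩
    have h8 : {v | v ∈ D ∧ col v = col x₀} =
        {x | x ∈ E (lev x₀) ∧ F (lev x₀) x = F (lev x₀) x₀} := by
      ext x
      constructor
      · rintro ⟨hx1, hx2⟩
        rw [hcol] at hx2
        simp only [Nat.pair_eq_pair] at hx2
        obtain ⟨h9, h10⟩ := hx2
        rw [h9] at h10
        refine ⟨?_, h10⟩
        rw [← h9]
        exact hl2 x hx1
      · rintro ⟨hx1, hx2⟩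
        have h9 : lev x = lev x₀ := by
          apply hl3 x _ hx1
          rw [hEs]
          rintro ⟨-, h10⟩
          exact h6 (hx2.symm.trans h10)
        refine ⟨hED _ hx1, ?_⟩
        rw [hcol]
        simp only [Nat.pair_eq_pair]
        refine ⟨h9, ?_⟩
        rw [h9]
        exact hx2
    rw [h8]
    exact hFg (lev x₀) _ ⟨x₀, hl2 x₀ hx₀, rfl⟩ h6
  · -- connectedness
    intro J₀ hJ₀
    obtain ⟨N, hN⟩ := (hJ₀.image fun j => (Nat.unpair j).1).bddAbove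
    obtain ⟨n, hn⟩ : ∃ n, n = N + 1 := ⟨_, rfl⟩
    have hJ : ∀ j ∈ J₀, (Nat.unpair j).1 < n := by
      intro j hj
      have : (Nat.unpair j).1 ≤ N := hN ⟨j, hj, rfl⟩
      omega
    have hfin : (col '' (D \ E n)).Finite := by
      refine (Set.Finite.biUnion (finite_Iio n) fun m _ =>
        (hFf m).image fun c' => Nat.pair m c').subset ?_
      rintro _ ⟨x, ⟨hx1, hx2⟩, rfl⟩
      rw [mem_iUnion₂]
      refine ⟨lev x, hl5 x n hx1 hx2, F (lev x) x, ⟨x, hl2 x hx1, rfl⟩, ?_⟩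
      rw [hcol]
    refine ⟨col '' (D \ E n) ∪ J₀, hfin.union hJ₀, subset_union_right, ?_⟩
    have hset : {x | x ∈ D ∧ col x ∉ col '' (D \ E n) ∪ J₀} = E n := by
      ext x
      constructor
      · rintro ⟨hx1, hx2⟩
        by_contra hcon
        exact hx2 (Or.inl ⟨x, ⟨hx1, hcon⟩, rfl⟩)
      · intro hx
        refine ⟨hED n hx, ?_⟩
        rintro (⟨y, ⟨hy1, hy2⟩, hy3⟩ | hx2)
        · have h5 := hl5 y n hy1 hy2
          have h6 := hl4 x n hx
          have h7 : lev y = lev x := by rw [← hcol1, hy3, hcol1]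
          omega
        · have h5 := hJ _ hx2
          rw [hcol1] at h5
          have h6 := hl4 x n hx
          omega
    rw [hset]
    intro a ha b hb ha' hb'
    have hmem : ∀ x ∈ D, col x ∉ col '' (D \ E n) ∪ J₀ → x ∈ E n := by
      intro x hx hx'
      rw [← hset]
      exact ⟨hx, hx'⟩
    exact hSCON V G (E n) (hEb n).1 a (hmem a ha ha') b (hmem b hb hb')

theorem s_SPLIT (hREF : S_REF.{u}) (hGLUE : S_GLUE.{u}) (hSING : S_SING.{u})
    (hSCON : S_SCON.{u}) (hNEST : S_NEST.{u}) (hLIM : S_LIM.{u}) : S_SPLIT.{u} := by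
  intro V G hG D hD
  by_contra hcon
  push Not at hcon
  obtain ⟨a, ha⟩ := hD.1.ne
  have : Nonempty V := ⟨a⟩
  have : Countable V := countable_of_conn G hG.lf hG.conn
  obtain ⟨vs, hvs⟩ := exists_surjective_nat V
  obtain ⟨D', hD'1, hD'2, hD'3⟩ := hNEST V G hG D hD {a} (finite_singleton a)
  refine split_aux hREF hGLUE hSING hSCON hLIM hG hD'3 ⟨a, ?_⟩ vs hvs ?_
  · intro h
    exact Set.disjoint_left.1 hD'2 h rfl
  · intro D₁ h1 D₂ h2 h3 h4 h5
    exact hcon D₁ (h1.trans hD'1) D₂ (h2.trans hD'1) h3 h4 h5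

end Pool.Agent.L7h61.CE
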